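import Mathlib
import Pool.Agent.W413.MZ.Ideals
import Pool.Agent.W413.MZ.Disc
import Pool.Agent.W413.MZ.Units
import Pool.Agent.W413.MZ.Roots

set_option autoImplicit false

namespace Pool.Agent.TH90.TW5

open NumberField Module Ideal MZ413

/-- the polynomial `X³ - 3X + 1` -/
noncomputable def f : Polynomial ℚ := Polynomial.X ^ 3 - 3 * Polynomial.X + 1

lemma natDegree_f : f.natDegree = 3 := by unfold f; compute_degree!

lemma monic_f : f.Monic := by unfold f; monicity!

lemma no_rat (q : ℚ) : q ^ 3 - 3 * q + 1 ≠ 0 := by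
  intro h
  have h1 : (q.num : ℚ) ^ 3 - 3 * q.num * (q.den : ℚ) ^ 2 + (q.den : ℚ) ^ 3 = 0 := by
    have hd : (q.den : ℚ) ≠ 0 := by exact_mod_cast q.den_nz
    have h2 : q = q.num / q.den := (Rat.num_div_den q).symm
    rw [h2] at h
    field_simp at h
    linear_combination h
  have h2 : q.num ^ 3 - 3 * q.num * (q.den : ℤ) ^ 2 + (q.den : ℤ) ^ 3 = 0 := by exact_mod_cast h1
  have hcop : IsCoprime q.num (q.den : ℤ) := by
    rw [Int.isCoprime_iff_gcd_eq_one]
    exact q.reduced
  have hd : IsUnit (q.den : ℤ) := by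
    have h3 : (q.den : ℤ) ∣ q.num ^ 3 := ⟨3 * q.num * (q.den : ℤ) - (q.den : ℤ) ^ 2, by
      linear_combination h2⟩
    exact (hcop.pow_left (m := 3)).symm.isUnit_of_dvd' dvd_rfl h3
  have hn : IsUnit q.num := by
    have h3 : q.num ∣ (q.den : ℤ) ^ 3 := ⟨3 * (q.den : ℤ) ^ 2 - q.num ^ 2, by
      linear_combination h2⟩
    exact (hcop.pow_right (n := 3)).isUnit_of_dvd' dvd_rfl h3
  rcases Int.isUnit_iff.1 hd with h3 | h3 <;> rcases Int.isUnit_iff.1 hn with h4 | h4 <;>
    rw [h3, h4] at h2 <;> norm_num at h2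

lemma irr_f : Irreducible f := by
  refine (Polynomial.Monic.irreducible_iff_roots_eq_zero_of_degree_le_three monic_f
    (by rw [natDegree_f]; norm_num) (by rw [natDegree_f])).2 ?_
  rw [Multiset.eq_zero_iff_forall_notMem]
  intro q hq
  have := Polynomial.isRoot_of_mem_roots hq
  apply no_rat q
  simpa [f, Polynomial.IsRoot] using this

instance : Fact (Irreducible f) := ⟨irr_f⟩

/-- the cubic field -/
abbrev K : Type := AdjoinRoot f

noncomputable def pb : PowerBasis ℚ K := AdjoinRoot.powerBasis irr_f.ne_zero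

noncomputable instance : NumberField K where
  to_charZero := charZero_of_injective_algebraMap (algebraMap ℚ K).injective
  to_finiteDimensional := pb.finite

lemma pb_dim : pb.dim = 3 := by
  show (AdjoinRoot.powerBasis irr_f.ne_zero).dim = 3
  rw [AdjoinRoot.powerBasis_dim, natDegree_f]

lemma rank_K : finrank ℚ K = 3 := by
  rw [pb.finrank, pb_dim]

noncomputable def θ : K := AdjoinRoot.root f

lemma eval₂_f {R : Type} [CommRing R] (φ : ℚ →+* R) (x : R) :
    Polynomial.eval₂ φ x f = x ^ 3 - 3 * x + 1 := by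
  rw [f, Polynomial.eval₂_add, Polynomial.eval₂_sub, Polynomial.eval₂_mul, Polynomial.eval₂_pow,
    Polynomial.eval₂_X, Polynomial.eval₂_one, Polynomial.eval₂_ofNat]

lemma θ_eq : θ ^ 3 = 3 * θ - 1 := by
  have h : Polynomial.eval₂ (AdjoinRoot.of f) θ f = 0 := AdjoinRoot.eval₂_root f
  rw [eval₂_f] at h
  linear_combination h

lemma θ_int : IsIntegral ℤ θ := by
  refine ⟨Polynomial.X ^ 3 - 3 * Polynomial.X + 1, by monicity!, ?_⟩
  simp only [Polynomial.eval₂_add, Polynomial.eval₂_sub, Polynomial.eval₂_mul, Polynomial.eval₂_pow,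
    Polynomial.eval₂_X, Polynomial.eval₂_one, Polynomial.eval₂_ofNat]
  linear_combination θ_eq

noncomputable def t : 𝓞 K := ⟨θ, θ_int⟩

lemma t_coe : algebraMap (𝓞 K) K t = θ := rfl

lemma t_eq : t ^ 3 = 3 * t - 1 := by
  apply (FaithfulSMul.algebraMap_injective (𝓞 K) K)
  rw [map_pow, map_sub, map_mul, map_ofNat, map_one, t_coe]
  exact θ_eq

noncomputable def bas : Basis (Fin 3) ℚ K := pb.basis.reindex (finCongr pb_dim)

lemma bas_apply (i : Fin 3) : bas i = algebraMap (𝓞 K) K (t ^ (i : ℕ)) := by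
  rw [bas, Basis.reindex_apply, PowerBasis.basis_eq_pow, map_pow, t_coe]
  rfl

/-- structure constants -/
def cst (i j k : Fin 3) : ℤ :=
  match (i : ℕ) + j, (k : ℕ) with
  | 0, 0 => 1
  | 1, 1 => 1
  | 2, 2 => 1
  | 3, 0 => -1
  | 3, 1 => 3
  | 4, 1 => -1
  | 4, 2 => 3
  | _, _ => 0

lemma discr_bas : Algebra.discr ℚ bas = (81 : ℤ) := by
  rw [discr_of_struct bas cst]
  · have : (Matrix.of fun i j => ∑ k, cst i j k * ∑ l, cst k l l : Matrix (Fin 3) (Fin 3) ℤ).det = 81 := by
      decide +kernel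
    rw [this]
  · intro i j
    rw [Fin.sum_univ_three]
    rw [bas_apply, bas_apply, bas_apply, bas_apply, bas_apply]
    simp only [map_pow, t_coe]
    fin_cases i <;> fin_cases j <;> simp only [cst] <;> norm_num
    all_goals first
      | ring1
      | linear_combination θ_eq
      | linear_combination θ * θ_eq

lemma exists_m : ∃ m : ℤ, m ^ 2 * discr K = 81 ∧ m ≠ 0 := by
  obtain ⟨m, h1, h2, -⟩ := exists_index bas (fun i => t ^ (i : ℕ)) bas_apply 81 discr_bas
  exact ⟨m, h1, h2⟩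

end Pool.Agent.TH90.TW5
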