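import Mathlib
import Pool.Agent.TH90.TW5.Field

set_option autoImplicit false

namespace Pool.Agent.TH90.TW5

open NumberField Module Ideal MZ413

lemma emb_ext {R : Type} [Field R] (F F' : K →+* R) (h : F θ = F' θ) : F = F' := by
  have h1 : F.comp (AdjoinRoot.of f) = F'.comp (AdjoinRoot.of f) := Subsingleton.elim _ _
  ext x
  · exact RingHom.congr_fun h1 x
  · exact h

lemma emb_root {R : Type} [Field R] (F : K →+* R) : F θ ^ 3 - 3 * F θ + 1 = 0 := by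
  have := congrArg F θ_eq
  rw [map_pow, map_sub, map_mul, map_one, map_ofNat] at this
  linear_combination this

/-- the roots -/
lemma roots : ∃ r1 r2 r3 : ℝ, r1 < 0 ∧ (0 < r2 ∧ r2 < 1) ∧ 1 < r3 ∧
    ∀ z : ℂ, z ^ 3 = 3 * z - 1 → z = (r1 : ℂ) ∨ z = (r2 : ℂ) ∨ z = (r3 : ℂ) := by
  obtain ⟨r1, r2, r3, h1, h2, h3, h⟩ := cubic_cases 3 (-1) (-2) (-1) 0 1 1 2 (by norm_num)
    (by norm_num) (by norm_num) (by norm_num) (by norm_num) (by norm_num) (by norm_num) (by norm_num)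
  refine ⟨r1, r2, r3, by linarith, h2, h3.1, fun z hz => h z ?_⟩
  rw [hz]; push_cast; ring

lemma emb_real (F : K →+* ℂ) : ComplexEmbedding.IsReal F := by
  obtain ⟨r1, r2, r3, -, -, -, h⟩ := roots
  have h1 := h (F θ) (by linear_combination emb_root F)
  rw [ComplexEmbedding.isReal_iff]
  apply emb_ext
  rw [ComplexEmbedding.conjugate_coe_eq]
  rcases h1 with h1 | h1 | h1 <;> rw [h1, Complex.conj_ofReal]

lemma nrComplex : InfinitePlace.nrComplexPlaces K = 0 := by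
  rw [nrComplexPlaces_eq_zero_iff, isTotallyReal_iff]
  intro p
  rw [← InfinitePlace.mk_embedding p, InfinitePlace.isReal_mk_iff]
  exact emb_real _

/-- the three real embeddings -/
lemma exists_embs : (∃ G : K →+* ℝ, G θ < 0) ∧ (∃ G : K →+* ℝ, 0 < G θ ∧ G θ < 1) ∧
    (∃ G : K →+* ℝ, 1 < G θ) := by
  have key : ∀ r : ℝ, r ^ 3 - 3 * r + 1 = 0 → ∃ G : K →+* ℝ, G θ = r := by
    intro r hr
    refine ⟨AdjoinRoot.lift (algebraMap ℚ ℝ) r ?_, ?_⟩
    · rw [eval₂_f]; exact hr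
    · exact AdjoinRoot.lift_root _
  have hcont : Continuous (fun x : ℝ => x ^ 3 - 3 * x + 1) := by fun_prop
  obtain ⟨r1, -, a1, e1⟩ := exists_root hcont (l := -2) (u := -1) (by norm_num) (by norm_num)
  obtain ⟨r2, a2, b2, e2⟩ := exists_root hcont (l := 0) (u := 1) (by norm_num) (by norm_num)
  obtain ⟨r3, a3, -, e3⟩ := exists_root hcont (l := 1) (u := 2) (by norm_num) (by norm_num)
  obtain ⟨G1, h1⟩ := key r1 e1
  obtain ⟨G2, h2⟩ := key r2 e2
  obtain ⟨G3, h3⟩ := key r3 e3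
  exact ⟨⟨G1, by rw [h1]; linarith⟩, ⟨G2, by rw [h2]; exact ⟨a2, b2⟩⟩, ⟨G3, by rw [h3]; exact a3⟩⟩

lemma two_inert (Q : Ideal (𝓞 K)) (hQ : Q.IsPrime) (h0 : Q ≠ ⊥) (hN : absNorm Q ≤ 2) : False := by
  obtain ⟨p, k, hp, hk, h1, hpQ⟩ := exists_prime_pow Q h0
  have hp2 : 2 ≤ p := hp.two_le
  have hpk : p ≤ p ^ k := Nat.le_self_pow hk.ne' p
  have hp' : p = 2 := by omega
  subst hp'
  have hN2 : absNorm Q = 2 := by omega
  obtain ⟨n, hn⟩ := exists_int_sub_mem Q hp hN2 t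
  have h3 : ((n ^ 3 - 3 * n + 1 : ℤ) : 𝓞 K) ∈ Q := by
    have h4 : ((n ^ 3 - 3 * n + 1 : ℤ) : 𝓞 K) =
        -(t - n) * (t ^ 2 + t * n + n ^ 2 - 3) := by
      push_cast
      linear_combination t_eq
    rw [h4]
    exact Q.mul_mem_right _ (Q.neg_mem hn)
  rw [int_mem_iff Q hp hpQ] at h3
  have h5 : ¬ ((2 : ℕ) : ℤ) ∣ n ^ 3 - 3 * n + 1 := by
    intro h6
    have h7 : ((n ^ 3 - 3 * n + 1 : ℤ) : ZMod 2) = 0 := by
      rw [ZMod.intCast_zmod_eq_zero_iff_dvd]; exact h6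
    push_cast at h7
    have : ∀ a : ZMod 2, a ^ 3 - 3 * a + 1 ≠ 0 := by decide
    exact this _ h7
  exact h5 h3

instance pid : IsPrincipalIdealRing (𝓞 K) := by
  obtain ⟨m, hm, hm0⟩ := exists_m
  apply RingOfIntegers.isPrincipalIdealRing_of_isPrincipal_of_norm_le_of_isPrime
  intro I hI hN
  have hI0 : (I : Ideal (𝓞 K)) ≠ ⊥ := by
    have := nonZeroDivisors.coe_ne_zero I
    simpa using this
  exfalso
  apply two_inert I hI hI0
  rw [nrComplex, rank_K] at hN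
  have hle : |discr K| ≤ 81 := by
    have h2 : 0 < discr K := by
      have := NumberField.sign_discr K
      rw [nrComplex, pow_zero] at this
      exact Int.sign_eq_one_iff_pos.1 this
    rw [abs_of_pos h2]
    have h4 : 1 ≤ m ^ 2 := by
      have : 0 < m ^ 2 := by positivity
      linarith
    nlinarith
  have hle' : |((discr K : ℤ) : ℝ)| ≤ 81 := by exact_mod_cast hle
  have hsq : √|((discr K : ℤ) : ℝ)| ≤ 9 := by
    rw [Real.sqrt_le_left (by norm_num)]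
    linarith
  have h7 : (absNorm (I : Ideal (𝓞 K)) : ℝ) ≤ 2 := by
    refine hN.trans ?_
    rw [pow_zero, one_mul]
    have h6 : ((Nat.factorial 3 : ℕ) : ℝ) / ((3 : ℕ) : ℝ) ^ 3 = 2 / 9 := by
      norm_num [Nat.factorial]
    rw [h6]
    linarith
  exact_mod_cast h7

end Pool.Agent.TH90.TW5
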