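import Mathlib
import Pool.Agent.TH90.TW5.PID

set_option autoImplicit false

namespace Pool.Agent.TH90.TW5

open NumberField Module Ideal MZ413

noncomputable def tU : (𝓞 K)ˣ where
  val := t
  inv := 3 - t ^ 2
  val_inv := by linear_combination (-1 : 𝓞 K) * t_eq
  inv_val := by linear_combination (-1 : 𝓞 K) * t_eq

noncomputable def sU : (𝓞 K)ˣ where
  val := 1 - t
  inv := 2 - t - t ^ 2
  val_inv := by linear_combination t_eq
  inv_val := by linear_combination t_eq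

noncomputable def eU : Fin 3 → (𝓞 K)ˣ := ![-1, tU, sU]

lemma pos_unit (u : (𝓞 K)ˣ) (hu : ∀ f : K →+* ℝ, 0 < f ((u : 𝓞 K) : K)) : IsSquare u := by
  refine pos_unit_isSquare 3 rank_K eU ?_ u hu
  obtain ⟨⟨G1, h1⟩, ⟨G2, h2, h2'⟩, ⟨G3, h3⟩⟩ := exists_embs
  have val : ∀ (G : K →+* ℝ) (S : Finset (Fin 3)),
      G (((∏ i ∈ S, eU i : (𝓞 K)ˣ) : 𝓞 K) : K) = ∏ i ∈ S, (![-1, G θ, 1 - G θ] : Fin 3 → ℝ) i := by
    intro G S
    have e0 : ∀ i : Fin 3, G (((eU i : (𝓞 K)ˣ) : 𝓞 K) : K) = (![-1, G θ, 1 - G θ] : Fin 3 → ℝ) i := by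
      intro i
      fin_cases i
      · show G (((-1 : (𝓞 K)ˣ) : 𝓞 K) : K) = -1
        simp
      · show G ((t : 𝓞 K) : K) = G θ
        rfl
      · show (G.comp (algebraMap (𝓞 K) K)) (1 - t) = 1 - G θ
        rw [map_sub, map_one]
        rfl
    show (G.comp (algebraMap (𝓞 K) K)) ((∏ i ∈ S, eU i : (𝓞 K)ˣ) : 𝓞 K) = _
    rw [Units.coe_prod, map_prod]
    exact Finset.prod_congr rfl fun i _ => e0 i
  intro S hS
  have hcases : S = {0} ∨ S = {1} ∨ S = {2} ∨ S = {0, 1} ∨ S = {0, 2} ∨ S = {1, 2} ∨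
      S = {0, 1, 2} := by
    have : ∀ S : Finset (Fin 3), S.Nonempty → S = {0} ∨ S = {1} ∨ S = {2} ∨ S = {0, 1} ∨
        S = {0, 2} ∨ S = {1, 2} ∨ S = {0, 1, 2} := by decide
    exact this S hS
  rcases hcases with rfl | rfl | rfl | rfl | rfl | rfl | rfl
  · refine ⟨G1, ?_⟩
    rw [val]
    simp
  · refine ⟨G1, ?_⟩
    rw [val]
    simpa using h1
  · refine ⟨G3, ?_⟩
    rw [val]
    simpa using h3
  · refine ⟨G2, ?_⟩
    rw [val, Finset.prod_pair (by decide)]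
    simpa using h2
  · refine ⟨G2, ?_⟩
    rw [val, Finset.prod_pair (by decide)]
    simpa using h2'
  · refine ⟨G1, ?_⟩
    rw [val, Finset.prod_pair (by decide)]
    have : G1 θ * (1 - G1 θ) < 0 := mul_neg_of_neg_of_pos h1 (by linarith)
    simpa using this
  · refine ⟨G2, ?_⟩
    rw [val, Finset.prod_insert (by decide), Finset.prod_pair (by decide)]
    have : 0 < G2 θ * (1 - G2 θ) := mul_pos h2 (by linarith)
    simpa using this

end Pool.Agent.TH90.TW5
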