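import Mathlib
import Pool.Agent.TH90.TW5.Un

set_option autoImplicit false

namespace Pool.Agent.TH90.TW5

open NumberField Module Ideal MZ413

/-- denominators of points of the curve -/
lemma den_sq (x y : ℚ) (h : y ^ 2 = x ^ 3 - 3 * x + 1) :
    ∃ p q Y : ℤ, q ≠ 0 ∧ IsCoprime p q ∧ x = p / (q : ℚ) ^ 2 ∧
      Y ^ 2 = p ^ 3 - 3 * p * (q ^ 2) ^ 2 + (q ^ 2) ^ 3 := by
  set p := x.num with hp
  set d : ℤ := (x.den : ℤ) with hd
  have hd0 : (0 : ℤ) < d := by rw [hd]; exact_mod_cast x.den_pos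
  have hx : x = p / d := (Rat.num_div_den x).symm
  have hcop : IsCoprime p d := by
    rw [Int.isCoprime_iff_gcd_eq_one]
    exact x.reduced
  set N : ℤ := p ^ 3 - 3 * p * d ^ 2 + d ^ 3 with hN
  have hdq : (d : ℚ) ≠ 0 := by exact_mod_cast hd0.ne'
  have h1 : (y * d ^ 2) ^ 2 = ((d * N : ℤ) : ℚ) := by
    have h2 : y ^ 2 * (d : ℚ) ^ 3 = (N : ℚ) := by
      rw [h, hx, hN]
      push_cast
      field_simp
    push_cast
    calc (y * (d : ℚ) ^ 2) ^ 2 = d * (y ^ 2 * (d : ℚ) ^ 3) := by ring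
      _ = _ := by rw [h2]
  obtain ⟨w, hw⟩ : ∃ w : ℤ, (w : ℚ) = y * d ^ 2 := by
    have h3 : IsIntegral ℤ (y * (d : ℚ) ^ 2) := by
      apply IsIntegral.of_pow (n := 2) (by norm_num)
      rw [h1]
      exact isIntegral_algebraMap (R := ℤ) (A := ℚ) (x := d * N)
    obtain ⟨w, hw⟩ := (IsIntegrallyClosed.isIntegral_iff (R := ℤ) (K := ℚ)).1 h3
    exact ⟨w, hw⟩
  have h4 : d * N = w ^ 2 := by
    have : ((w : ℤ) : ℚ) ^ 2 = ((d * N : ℤ) : ℚ) := by rw [hw, h1]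
    exact_mod_cast this.symm
  have hcop2 : IsCoprime d N := by
    have h5 : N = p ^ 3 + d * (d ^ 2 - 3 * p * d) := by rw [hN]; ring
    rw [h5]
    exact (hcop.symm.pow_right (n := 3)).add_mul_left_right _
  obtain ⟨q, hq⟩ := Int.sq_of_isCoprime hcop2 h4
  have hq' : d = q ^ 2 := by
    rcases hq with hq | hq
    · exact hq
    · exfalso
      nlinarith [sq_nonneg q]
  obtain ⟨Y, hY⟩ := Int.sq_of_isCoprime hcop2.symm (by rw [mul_comm]; exact h4)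
  have hN0 : 0 ≤ N := by
    by_contra hneg
    push Not at hneg
    nlinarith [sq_nonneg w]
  have hY' : N = Y ^ 2 := by
    rcases hY with hY | hY
    · exact hY
    · have h6 : N = 0 := by
        have := sq_nonneg Y
        linarith
      have h7 : Y ^ 2 = 0 := by linarith
      rw [h6, h7]
  refine ⟨p, q, Y, ?_, ?_, ?_, ?_⟩
  · rintro rfl
    rw [hq'] at hd0
    norm_num at hd0
  · rw [hq'] at hcop
    exact (IsCoprime.pow_right_iff (by norm_num)).1 hcop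
  · rw [hx, hq']; push_cast; rfl
  · rw [← hY', hN, hq']

lemma not_three (p d Y : ℤ) (hcop : IsCoprime p d) (h : Y ^ 2 = p ^ 3 - 3 * p * d ^ 2 + d ^ 3) :
    ¬ (3 : ℤ) ∣ Y := by
  intro h3
  have h9 : (9 : ℤ) ∣ p ^ 3 - 3 * p * d ^ 2 + d ^ 3 := by
    rw [← h]
    obtain ⟨k, rfl⟩ := h3
    exact ⟨k ^ 2, by ring⟩
  have h1 : ((p ^ 3 - 3 * p * d ^ 2 + d ^ 3 : ℤ) : ZMod 9) = 0 := by
    rw [ZMod.intCast_zmod_eq_zero_iff_dvd]; exact_mod_cast h9
  push_cast at h1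
  have key : ∀ a b : ZMod 9, a ^ 3 - 3 * a * b ^ 2 + b ^ 3 = 0 → 3 * a = 0 ∧ 3 * b = 0 := by decide
  obtain ⟨h2, h4⟩ := key _ _ h1
  have e1 : (3 : ℤ) ∣ p := by
    have : (((3 * p : ℤ)) : ZMod 9) = 0 := by push_cast; exact h2
    rw [ZMod.intCast_zmod_eq_zero_iff_dvd] at this
    obtain ⟨k, hk⟩ := this
    exact ⟨k, by push_cast at hk; linarith⟩
  have e2 : (3 : ℤ) ∣ d := by
    have : (((3 * d : ℤ)) : ZMod 9) = 0 := by push_cast; exact h4
    rw [ZMod.intCast_zmod_eq_zero_iff_dvd] at this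
    obtain ⟨k, hk⟩ := this
    exact ⟨k, by push_cast at hk; linarith⟩
  have := hcop.isUnit_of_dvd' e1 e2
  norm_num [Int.isUnit_iff] at this

/-- conjugates -/
noncomputable def t' : 𝓞 K := t ^ 2 - 2
noncomputable def t'' : 𝓞 K := 2 - t - t ^ 2

lemma prod_eq (p d : 𝓞 K) : (p - t * d) * ((p - t' * d) * (p - t'' * d)) =
    p ^ 3 - 3 * p * d ^ 2 + d ^ 3 := by
  unfold t' t''
  have h4 : t ^ 4 = 3 * t ^ 2 - t := by linear_combination t * t_eq
  have h5 : t ^ 5 = 9 * t - 3 - t ^ 2 := by linear_combination t * h4 + 3 * t_eq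
  ring_nf
  simp only [h5, h4, t_eq]
  ring

lemma disc_eq : (t - t') * ((t' - t'') * (t'' - t)) = 9 ∨
    (t - t') * ((t' - t'') * (t'' - t)) = -9 := by
  unfold t' t''
  have h4 : t ^ 4 = 3 * t ^ 2 - t := by linear_combination t * t_eq
  have h5 : t ^ 5 = 9 * t - 3 - t ^ 2 := by linear_combination t * h4 + 3 * t_eq
  have h6 : t ^ 6 = 9 * t ^ 2 - 3 * t - (3 * t - 1) := by linear_combination t * h5 - t_eq
  first
    | left; ring_nf; simp only [h6, h5, h4, t_eq]; ring1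
    | right; ring_nf; simp only [h6, h5, h4, t_eq]; ring1

lemma cop_aux (p d Y : ℤ) (hcop : IsCoprime p d) (h3 : ¬ (3 : ℤ) ∣ Y) (s s' δ γ : 𝓞 K)
    (h9 : (s - s') * δ = 9 ∨ (s - s') * δ = -9)
    (hY : ((p : 𝓞 K) - s * d) * γ = (Y : 𝓞 K) ^ 2) :
    IsCoprime ((p : 𝓞 K) - s * d) ((p : 𝓞 K) - s' * d) := by
  obtain ⟨u, v, huv⟩ := hcop
  have huv' : (u : 𝓞 K) * p + v * d = 1 := by exact_mod_cast congrArg (Int.cast : ℤ → 𝓞 K) huv
  have h9Y : IsCoprime (9 : ℤ) (Y ^ 2) := by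
    have h1 : IsCoprime (3 : ℤ) Y :=
      (Int.prime_three.coprime_iff_not_dvd).2 h3
    have : (9 : ℤ) = 3 ^ 2 := by norm_num
    rw [this]
    exact IsCoprime.pow h1
  obtain ⟨m, n, hmn⟩ := h9Y
  have hmn' : (m : 𝓞 K) * 9 + n * (Y : 𝓞 K) ^ 2 = 1 := by
    exact_mod_cast congrArg (Int.cast : ℤ → 𝓞 K) hmn
  have hdiff : s - s' = u * (s * ((p : 𝓞 K) - s' * d) - s' * ((p : 𝓞 K) - s * d)) +
      v * (((p : 𝓞 K) - s' * d) - ((p : 𝓞 K) - s * d)) := by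
    linear_combination (-(s - s')) * huv'
  rcases h9 with h9 | h9
  · refine ⟨m * δ * (-u * s' - v) + n * γ, m * δ * (u * s + v), ?_⟩
    linear_combination hmn' + (n : 𝓞 K) * hY + m * h9 - m * δ * hdiff
  · refine ⟨-(m * δ * (-u * s' - v)) + n * γ, -(m * δ * (u * s + v)), ?_⟩
    linear_combination hmn' + (n : 𝓞 K) * hY - m * h9 + m * δ * hdiff

/-- `p - t d` is a unit times a square -/
lemma unit_sq (p d Y : ℤ) (hcop : IsCoprime p d) (h : Y ^ 2 = p ^ 3 - 3 * p * d ^ 2 + d ^ 3) :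
    ∃ (u : (𝓞 K)ˣ) (β : 𝓞 K), (p : 𝓞 K) - t * d = u * β ^ 2 := by
  have h3 := not_three p d Y hcop h
  have hY : ((p : 𝓞 K) - t * d) * (((p : 𝓞 K) - t' * d) * ((p : 𝓞 K) - t'' * d)) =
      (Y : 𝓞 K) ^ 2 := by
    rw [prod_eq]
    exact_mod_cast (congrArg (Int.cast : ℤ → 𝓞 K) h).symm
  have c1 : IsCoprime ((p : 𝓞 K) - t * d) ((p : 𝓞 K) - t' * d) :=
    cop_aux p d Y hcop h3 t t' ((t' - t'') * (t'' - t)) _ disc_eq hY
  have c2 : IsCoprime ((p : 𝓞 K) - t * d) ((p : 𝓞 K) - t'' * d) := by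
    refine cop_aux p d Y hcop h3 t t'' (-((t - t') * (t' - t''))) _ ?_ hY
    rcases disc_eq with h9 | h9
    · left; linear_combination h9
    · right; linear_combination h9
  obtain ⟨β, u, hu⟩ := exists_associated_pow_of_mul_eq_pow' (c1.mul_right c2) hY
  exact ⟨u, β, by rw [← hu]; ring⟩

end Pool.Agent.TH90.TW5
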