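import Mathlib
import Pool.Agent.TH90.TW5.Alg
import Pool.Agent.TH716.TW.Defs

set_option autoImplicit false

namespace Pool.Agent.TH90.TW5

open NumberField Module Ideal MZ413

/-- halving formulas in terms of the coordinates of the square root of `x - θ` -/
lemma uv (a b c x : ℚ) (h0 : x = a ^ 2 - 2 * b * c) (h1 : 2 * a * b + 6 * b * c - c ^ 2 = -1)
    (h2 : b ^ 2 + 2 * a * c + 3 * c ^ 2 = 0) :
    ∃ u v : ℚ, v ^ 2 = u ^ 3 - 3 * u + 1 ∧ x * (4 * v ^ 2) = u ^ 4 + 6 * u ^ 2 - 8 * u + 9 := by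
  refine ⟨4 * a ^ 2 + 18 * a * c + 1 * b * c + 18 * c ^ 2, 8 * a ^ 3 + 66 * a ^ 2 * c + 3 * a * b ^ 2 + 6 * a * b * c + 153 * a * c ^ 2 + 1 * b ^ 3 + 15 * b * c ^ 2 + 107 * c ^ 3, ?_, ?_⟩
  · have key : (8 * a ^ 3 + 66 * a ^ 2 * c + 3 * a * b ^ 2 + 6 * a * b * c + 153 * a * c ^ 2 + 1 * b ^ 3 + 15 * b * c ^ 2 + 107 * c ^ 3) ^ 2 =
        (4 * a ^ 2 + 18 * a * c + 1 * b * c + 18 * c ^ 2) ^ 3 - 3 * (4 * a ^ 2 + 18 * a * c + 1 * b * c + 18 * c ^ 2) * (-(2 * a * b + 6 * b * c - c ^ 2)) ^ 2 +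
        (-(2 * a * b + 6 * b * c - c ^ 2)) ^ 3 +
        (96 * a ^ 4 + 24 * a ^ 3 * b + 882 * a ^ 3 * c + 9 * a ^ 2 * b ^ 2 + 240 * a ^ 2 * b * c + 2827 * a ^ 2 * c ^ 2 + 6 * a * b ^ 3 + 10 * a * b ^ 2 * c + 666 * a * b * c ^ 2 + 3840 * a * c ^ 3 + 1 * b ^ 4 + 27 * b ^ 2 * c ^ 2 + 537 * b * c ^ 3 + 1890 * c ^ 4) * (b ^ 2 + 2 * a * c + 3 * c ^ 2) := by ring
    rw [h1, h2] at key
    rw [key]; ring
  · have key : (a ^ 2 - 2 * b * c) * (4 * (8 * a ^ 3 + 66 * a ^ 2 * c + 3 * a * b ^ 2 + 6 * a * b * c + 153 * a * c ^ 2 + 1 * b ^ 3 + 15 * b * c ^ 2 + 107 * c ^ 3) ^ 2) =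
        (4 * a ^ 2 + 18 * a * c + 1 * b * c + 18 * c ^ 2) ^ 4 + 6 * (4 * a ^ 2 + 18 * a * c + 1 * b * c + 18 * c ^ 2) ^ 2 * (-(2 * a * b + 6 * b * c - c ^ 2)) ^ 2 -
        8 * (4 * a ^ 2 + 18 * a * c + 1 * b * c + 18 * c ^ 2) * (-(2 * a * b + 6 * b * c - c ^ 2)) ^ 3 + 9 * (-(2 * a * b + 6 * b * c - c ^ 2)) ^ 4 +
        (-192 * a ^ 6 - 192 * a ^ 5 * b - 3960 * a ^ 5 * c - 108 * a ^ 4 * b ^ 2 - 3408 * a ^ 4 * b * c - 28004 * a ^ 4 * c ^ 2 + 24 * a ^ 3 * b ^ 3 - 1880 * a ^ 3 * b ^ 2 * c - 21672 * a ^ 3 * b * c ^ 2 - 90984 * a ^ 3 * c ^ 3 + 4 * a ^ 2 * b ^ 4 - 72 * a ^ 2 * b ^ 3 * c - 9516 * a ^ 2 * b ^ 2 * c ^ 2 - 59888 * a ^ 2 * b * c ^ 3 - 148392 * a ^ 2 * c ^ 4 - 48 * a * b ^ 4 * c - 80 * a * b ^ 3 * c ^ 2 - 20448 * a * b ^ 2 * c ^ 3 - 72768 * a * b * c ^ 4 - 117486 * a * c ^ 5 - 8 * b ^ 5 * c - 216 * b ^ 3 * c ^ 3 - 15321 * b ^ 2 * c ^ 4 - 31392 * b * c ^ 5 - 35595 * c ^ 6) * (b ^ 2 + 2 * a * c +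 3 * c ^ 2) := by ring
    rw [h1, h2] at key
    rw [h0, key]; ring

lemma coords (g : K) : ∃ a b c : ℚ, g = algebraMap ℚ K a + algebraMap ℚ K b * θ + algebraMap ℚ K c * θ ^ 2 := by
  refine ⟨bas.repr g 0, bas.repr g 1, bas.repr g 2, ?_⟩
  conv_lhs => rw [← bas.sum_repr g, Fin.sum_univ_three, bas_apply, bas_apply, bas_apply]
  simp only [map_pow, t_coe, Algebra.smul_def]
  norm_num

lemma coords_inj (a b c : ℚ)
    (h : algebraMap ℚ K a + algebraMap ℚ K b * θ + algebraMap ℚ K c * θ ^ 2 = 0) :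
    a = 0 ∧ b = 0 ∧ c = 0 := by
  have h1 := bas.linearIndependent
  rw [Fintype.linearIndependent_iff] at h1
  have h2 := h1 ![a, b, c] (by
    rw [Fin.sum_univ_three, bas_apply, bas_apply, bas_apply]
    simp only [map_pow, t_coe, Algebra.smul_def]
    simpa using h)
  exact ⟨h2 0, h2 1, h2 2⟩

/-- if `x - θ` is a square in `K` then `x` is the abscissa of the double of a rational point -/
lemma halve_of_sq (x : ℚ) (g : K) (h : algebraMap ℚ K x - θ = g ^ 2) :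
    ∃ u v : ℚ, v ^ 2 = u ^ 3 - 3 * u + 1 ∧ x = (u ^ 4 + 6 * u ^ 2 - 8 * u + 9) / (4 * v ^ 2) := by
  obtain ⟨a, b, c, hg⟩ := coords g
  have h4 : θ ^ 4 = 3 * θ ^ 2 - θ := by linear_combination θ * θ_eq
  have h5 : algebraMap ℚ K (a ^ 2 - 2 * b * c - x) + algebraMap ℚ K (2 * a * b + 6 * b * c - c ^ 2 + 1) * θ +
      algebraMap ℚ K (b ^ 2 + 2 * a * c + 3 * c ^ 2) * θ ^ 2 = 0 := by
    simp only [map_sub, map_add, map_mul, map_pow, map_one, map_ofNat]
    rw [hg] at h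
    linear_combination (-1 : K) * h - (2 * algebraMap ℚ K b * algebraMap ℚ K c) * θ_eq -
      (algebraMap ℚ K c) ^ 2 * h4
  obtain ⟨e0, e1, e2⟩ := coords_inj _ _ _ h5
  obtain ⟨u, v, h6, h7⟩ := uv a b c x (by linarith) (by linarith) e2
  have hv : v ≠ 0 := by
    rintro rfl
    exact no_rat u (by linarith)
  refine ⟨u, v, h6, ?_⟩
  rw [eq_div_iff (by positivity)]
  exact h7

lemma real_root_facts (ρ x : ℝ) (hρ : ρ ^ 3 - 3 * ρ + 1 = 0) (hx : 0 < x ^ 3 - 3 * x + 1) :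
    (1 < x → 0 < x - ρ) ∧ (x ≤ 1 → 0 < -ρ * (x - ρ)) := by
  have key : 0 < (x - ρ) * (x ^ 2 + x * ρ + ρ ^ 2 - 3) := by
    have : (x - ρ) * (x ^ 2 + x * ρ + ρ ^ 2 - 3) = (x ^ 3 - 3 * x + 1) - (ρ ^ 3 - 3 * ρ + 1) := by ring
    rw [this, hρ, sub_zero]; exact hx
  constructor
  · intro h1
    by_contra hcon
    push Not at hcon
    have h2 : x ≤ ρ := by linarith
    have h3 : 0 ≤ x ^ 2 + x * ρ + ρ ^ 2 - 3 := by nlinarith
    nlinarith [mul_nonneg (sub_nonneg.2 h2) h3]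
  · intro h1
    have hρ0 : ρ ≠ 0 := by rintro rfl; norm_num at hρ
    rcases lt_or_gt_of_ne hρ0 with hneg | hpos
    · have h2 : ρ < -1 := by
        by_contra hcon
        push Not at hcon
        nlinarith [mul_nonneg (by linarith : (0 : ℝ) ≤ ρ + 1) (by linarith : (0 : ℝ) ≤ -ρ),
          mul_nonneg (mul_nonneg (by linarith : (0 : ℝ) ≤ ρ + 1) (by linarith : (0 : ℝ) ≤ -ρ))
            (by linarith : (0 : ℝ) ≤ ρ + 1)]
      have h3 : ρ < x := by
        by_contra hcon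
        push Not at hcon
        have h4 : 0 ≤ x ^ 2 + x * ρ + ρ ^ 2 - 3 := by nlinarith
        nlinarith [mul_nonneg (sub_nonneg.2 hcon) h4]
      exact mul_pos (by linarith) (by linarith)
    · have h3 : x < ρ := by
        by_contra hcon
        push Not at hcon
        have h4 : x ^ 2 + x * ρ + ρ ^ 2 - 3 ≤ 0 := by nlinarith
        nlinarith [mul_nonneg (sub_nonneg.2 hcon) (sub_nonneg.2 h4)]
      have h5 : -ρ * (x - ρ) = ρ * (ρ - x) := by ring
      rw [h5]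
      exact mul_pos hpos (by linarith)

/-- an element of `K` with coefficients in `ℤ[θ]` -/
lemma sq_of_point (x y : ℚ) (h : y ^ 2 = x ^ 3 - 3 * x + 1) :
    (1 < x → ∃ g : K, algebraMap ℚ K x - θ = g ^ 2) ∧
    (x ≤ 1 → ∃ g : K, -θ * (algebraMap ℚ K x - θ) = g ^ 2) := by
  obtain ⟨p, q, Y, hq, hcop, hx, hY⟩ := den_sq x y h
  obtain ⟨u, β, hu⟩ := unit_sq p (q ^ 2) Y (hcop.pow_right) hY
  have hqQ : (q : ℚ) ≠ 0 := by exact_mod_cast hq
  have hqK : (algebraMap ℚ K q) ≠ 0 := by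
    rw [ne_eq, map_eq_zero]; exact hqQ
  have hqR : (q : ℝ) ≠ 0 := by exact_mod_cast hq
  have hpos : 0 < x ^ 3 - 3 * x + 1 := by
    rw [← h]
    have : y ≠ 0 := by
      rintro rfl
      exact no_rat x (by linarith)
    positivity
  have hposR : 0 < (x : ℝ) ^ 3 - 3 * x + 1 := by exact_mod_cast hpos
  -- in `K`
  have hK : (algebraMap ℚ K q) ^ 2 * (algebraMap ℚ K x - θ) =
      algebraMap (𝓞 K) K u * (algebraMap (𝓞 K) K β) ^ 2 := by
    have h1 := congrArg (algebraMap (𝓞 K) K) hu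
    rw [map_mul, map_pow, map_sub, map_mul, t_coe] at h1
    rw [← h1, hx]
    simp only [map_intCast, map_div₀, map_pow, Int.cast_pow]
    have : ((q : K)) ≠ 0 := by exact_mod_cast hq
    field_simp
  have hβ : β ≠ 0 := by
    rintro rfl
    rw [map_zero, zero_pow two_ne_zero, mul_zero] at hK
    rcases mul_eq_zero.1 hK with h1 | h1
    · exact pow_ne_zero 2 hqK h1
    · have h2 := coords_inj x (-1) 0 (by rw [map_neg, map_one, map_zero]; linear_combination h1)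
      norm_num at h2
  have hβK : algebraMap (𝓞 K) K β ≠ 0 := by
    rw [ne_eq, FaithfulSMul.algebraMap_eq_zero_iff]; exact hβ
  have himg : ∀ G : K →+* ℝ, (q : ℝ) ^ 2 * (x - G θ) =
      G (algebraMap (𝓞 K) K u) * (G (algebraMap (𝓞 K) K β)) ^ 2 := by
    intro G
    have := congrArg G hK
    rw [map_mul, map_pow, map_sub, map_mul, map_pow] at this
    have e1 : ∀ r : ℚ, G (algebraMap ℚ K r) = (r : ℝ) := by
      intro r
      exact RingHom.congr_fun (Subsingleton.elim (G.comp (algebraMap ℚ K)) (algebraMap ℚ ℝ)) r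
    rw [e1, e1] at this
    push_cast at this
    exact this
  constructor
  · intro h1
    have hun : IsSquare u := by
      refine pos_unit u (fun G => ?_)
      have h2 := (real_root_facts (G θ) x (emb_root G) hposR).1 (by exact_mod_cast h1)
      have h3 := himg G
      have h4 : 0 < G (algebraMap (𝓞 K) K u) * (G (algebraMap (𝓞 K) K β)) ^ 2 := by
        rw [← h3]; positivity
      exact pos_of_mul_pos_left h4 (sq_nonneg _)
    obtain ⟨w, hw⟩ := hun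
    refine ⟨algebraMap (𝓞 K) K w * algebraMap (𝓞 K) K β / algebraMap ℚ K q, ?_⟩
    have hw' : algebraMap (𝓞 K) K u = (algebraMap (𝓞 K) K w) ^ 2 := by
      rw [hw, Units.val_mul, map_mul, pow_two]
    rw [hw'] at hK
    rw [div_pow, eq_div_iff (pow_ne_zero 2 hqK)]
    linear_combination hK
  · intro h1
    have hun : IsSquare (-tU * u) := by
      refine pos_unit _ (fun G => ?_)
      have h2 := (real_root_facts (G θ) x (emb_root G) hposR).2 (by exact_mod_cast h1)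
      have h3 := himg G
      have h5 : G (algebraMap (𝓞 K) K ((-tU * u : (𝓞 K)ˣ) : 𝓞 K)) = -G θ * G (algebraMap (𝓞 K) K u) := by
        rw [Units.val_mul, Units.val_neg, map_mul, map_mul, map_neg, map_neg]
        rfl
      show 0 < G (algebraMap (𝓞 K) K ((-tU * u : (𝓞 K)ˣ) : 𝓞 K))
      rw [h5]
      have h4 : 0 < (-G θ * G (algebraMap (𝓞 K) K u)) * (G (algebraMap (𝓞 K) K β)) ^ 2 := by
        rw [mul_assoc, ← h3]
        have : -G θ * ((q : ℝ) ^ 2 * (x - G θ)) = (q : ℝ) ^ 2 * (-G θ * (x - G θ)) := by ring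
        rw [this]
        positivity
      exact pos_of_mul_pos_left h4 (sq_nonneg _)
    obtain ⟨w, hw⟩ := hun
    refine ⟨algebraMap (𝓞 K) K w * algebraMap (𝓞 K) K β / algebraMap ℚ K q, ?_⟩
    have hw' : -θ * algebraMap (𝓞 K) K u = (algebraMap (𝓞 K) K w) ^ 2 := by
      have := congrArg (fun z : (𝓞 K)ˣ => algebraMap (𝓞 K) K z) hw
      simp only [Units.val_mul, Units.val_neg, map_mul, map_neg] at this
      rw [pow_two, ← this]
      rfl
    rw [div_pow, eq_div_iff (pow_ne_zero 2 hqK)]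
    linear_combination (-θ) * hK + (algebraMap (𝓞 K) K β) ^ 2 * hw'

/-- **2-descent.** -/
theorem result : Pool.Agent.TH716.TW.S_halve := by
  intro x y h hx0
  rcases lt_or_ge 1 x with h1 | h1
  · left
    obtain ⟨g, hg⟩ := (sq_of_point x y h).1 h1
    exact halve_of_sq x g hg
  · right
    obtain ⟨g, hg⟩ := (sq_of_point x y h).2 h1
    obtain ⟨l, hl⟩ : ∃ l : ℚ, l = (y - 1) / x := ⟨_, rfl⟩
    have hlx : l * x = y - 1 := by rw [hl]; field_simp
    rw [← hl]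
    have hx0K : algebraMap ℚ K x ≠ 0 := by rw [ne_eq, map_eq_zero]; exact hx0
    have hθ0 : θ ≠ 0 := by
      intro h2
      have := θ_eq
      rw [h2] at this
      norm_num at this
    have hxθ : algebraMap ℚ K x - θ ≠ 0 := by
      intro h2
      have h3 := coords_inj x (-1) 0 (by rw [map_neg, map_one, map_zero]; linear_combination h2)
      norm_num at h3
    have hg0 : g ≠ 0 := by
      rintro rfl
      rw [zero_pow two_ne_zero] at hg
      rcases mul_eq_zero.1 hg with h3 | h3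
      · exact hθ0 (neg_eq_zero.1 h3)
      · exact hxθ h3
    refine halve_of_sq (l ^ 2 - x) ((algebraMap ℚ K l * θ + 1) / g) ?_
    rw [div_pow, eq_div_iff (pow_ne_zero 2 hg0), ← hg, map_sub, map_pow]
    have e1 : (algebraMap ℚ K y) ^ 2 = (algebraMap ℚ K x) ^ 3 - 3 * algebraMap ℚ K x + 1 := by
      have := congrArg (algebraMap ℚ K) h
      simpa only [map_pow, map_sub, map_add, map_mul, map_one, map_ofNat] using this
    have e2 : algebraMap ℚ K l * algebraMap ℚ K x = algebraMap ℚ K y - 1 := by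
      rw [← map_mul, hlx, map_sub, map_one]
    have e3 : (algebraMap ℚ K l ^ 2 * algebraMap ℚ K x) = (algebraMap ℚ K x) ^ 2 - 3 -
        2 * algebraMap ℚ K l := by
      have h3 : algebraMap ℚ K x * (algebraMap ℚ K l ^ 2 * algebraMap ℚ K x) =
          algebraMap ℚ K x * ((algebraMap ℚ K x) ^ 2 - 3 - 2 * algebraMap ℚ K l) := by
        linear_combination (algebraMap ℚ K l * algebraMap ℚ K x + algebraMap ℚ K y - 1 + 2) * e2 + e1
      exact mul_left_cancel₀ hx0K h3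
    linear_combination (-θ) * e3 - θ_eq

end Pool.Agent.TH90.TW5
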